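import Mathlib
import Pool.Agent.Y728.AK.Final
import Pool.Agent.TH402.AK.Weak

/-!
# Almost all numbers satisfy the weak abc inequality: passage from points to numbers (helper557)
-/

set_option autoImplicit false

namespace Pool.Agent.Y557.WK

open NumberField IsDedekindDomain Finset Pool.Agent.H691R3 Pool.Agent.TH876.Loc
open Pool.Agent.TH402.AK Pool.Agent.TH402.AK.Weak

variable {K : Type} [Field K] [NumberField K]

/-- the height of the number is at most the height of the point -/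
theorem le_hgt {x : K} (h0 : x ≠ 0) (h1 : x ≠ 1) :
    (Module.finrank ℚ K : ℝ) * height x ≤ hgt (-x) := by
  have hd := (d_pos (K := K)).ne'
  unfold hgt
  rw [sum_Spl]
  have hfin : ∑ v ∈ sp (-x), mx (Sum.inr v : Pl K) (-x) =
      ∑ᶠ v : HeightOneSpectrum (𝓞 K), Real.log (max 1 (FinitePlace.mk v x)) := by
    rw [finsum_eq_sum_of_support_subset (s := sp (-x))]
    · refine Finset.sum_congr rfl fun v _ => ?_
      unfold mx
      show 1 * Real.log (max (fv v (-x)) (max (fv v 1) (fv v (- -x - 1)))) =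
        Real.log (max 1 (fv v x))
      rw [one_mul, (fv v).map_neg, map_one, neg_neg]
      congr 1
      have hna : fv v (x - 1) ≤ max (fv v x) 1 := by
        have := fv_na v x (-1)
        rw [(fv v).map_neg, map_one] at this
        rw [sub_eq_add_neg]
        exact this
      rw [← max_assoc, max_eq_left hna, max_comm]
    · intro v hv
      rw [Function.mem_support] at hv
      rw [Finset.mem_coe, mem_sp_neg h0 h1]
      rintro ⟨h, _⟩
      apply hv
      show Real.log (max 1 (fv v x)) = 0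
      rw [h, max_self, Real.log_one]
  have hinf : ∀ w : InfinitePlace K,
      (w.mult : ℝ) * Real.log (max 1 (w x)) ≤ mx (Sum.inl w : Pl K) (-x) := by
    intro w
    unfold mx
    show _ ≤ (w.mult : ℝ) * Real.log (max (w (-x)) (max (w 1) (w (- -x - 1))))
    have e1 : w (-x) = w x := w.1.map_neg x
    rw [e1, map_one]
    refine mul_le_mul_of_nonneg_left ?_ (Nat.cast_nonneg _)
    refine Real.log_le_log (lt_of_lt_of_le one_pos (le_max_left _ _)) ?_
    exact max_le ((le_max_left _ _).trans (le_max_right _ _)) (le_max_left _ _)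
  rw [hfin]
  have h8 := Finset.sum_le_sum fun w (_ : w ∈ (Finset.univ : Finset (InfinitePlace K))) => hinf w
  have h9 : (Module.finrank ℚ K : ℝ) * height x =
      (∑ w : InfinitePlace K, (w.mult : ℝ) * Real.log (max 1 (w x))) +
      ∑ᶠ v : HeightOneSpectrum (𝓞 K), Real.log (max 1 (FinitePlace.mk v x)) := by
    unfold height
    rw [← mul_assoc, mul_one_div_cancel hd, one_mul]
  rw [h9]
  linarith

/-- the count of the points with large height, with an additive constant -/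
theorem cnt_const (K : Type) [Field K] [NumberField K] {κ : ℝ} (c : ℝ) (hκ : 1 / 3 < κ) :
    ∃ ν : ℝ, 0 < ν ∧ ∃ C : ℝ, 0 < C ∧ ∀ X : ℝ, 1 ≤ X → ∀ E : Finset K,
      (∀ z ∈ E, Pt z ∧ nn (sp z) ≤ X ∧ κ * Real.log (nn (sp z)) ≤ hgt z + c) →
      (E.card : ℝ) ≤ C * X ^ (2 / 3 - ν) := by
  classical
  obtain ⟨κ', hκ'⟩ : ∃ κ', κ' = (κ + 1 / 3) / 2 := ⟨_, rfl⟩
  obtain ⟨b, hb⟩ : ∃ b, b = κ - κ' := ⟨_, rfl⟩
  have hb0 : 0 < b := by rw [hb, hκ']; linarith
  have hκ1 : 1 / 3 < κ' := by rw [hκ']; linarith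
  obtain ⟨ν, hν, C, hC, h1⟩ := Pool.Agent.Y728.AK.exc_aff K (Pool.Agent.Y728.AK.almost_allK K)
    (∅ : Finset (Pr K)) hκ1
  obtain ⟨D, hD, h2⟩ := Pool.Agent.Y728.mainK K 1 one_pos
  obtain ⟨L, hL⟩ : ∃ L, L = |c| / b := ⟨_, rfl⟩
  have hL0 : 0 ≤ L := by rw [hL]; positivity
  have hbL : b * L = |c| := by rw [hL]; field_simp
  have hν1 : 0 ≤ 2 / 3 - min ν (1 / 3) := by
    have := min_le_right ν (1 / 3)
    linarith
  refine ⟨min ν (1 / 3), lt_min hν (by norm_num), D * (Real.exp L) ^ ((2 : ℝ) / 3 + 1) + C,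
    by positivity, fun X hX E hE => ?_⟩
  obtain ⟨E1, hE1⟩ : ∃ E1, E1 = E.filter fun z => Real.log (nn (sp z)) ≤ L := ⟨_, rfl⟩
  obtain ⟨E2, hE2⟩ : ∃ E2, E2 = E.filter fun z => ¬ Real.log (nn (sp z)) ≤ L := ⟨_, rfl⟩
  have hcard : E.card = E1.card + E2.card := by
    rw [hE1, hE2]
    exact (Finset.card_filter_add_card_filter_not _).symm
  have hXν : 1 ≤ X ^ (2 / 3 - min ν (1 / 3)) := Real.one_le_rpow hX hν1
  have k1 : (E1.card : ℝ) ≤ D * (Real.exp L) ^ ((2 : ℝ) / 3 + 1) * X ^ (2 / 3 - min ν (1 / 3)) := by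
    have e1 := h2 (Real.exp L) (Real.one_le_exp hL0) E1 (fun z hz => by
      rw [hE1, Finset.mem_filter] at hz
      exact ⟨(hE z hz.1).1, (Real.log_le_iff_le_exp (nn_pos _)).1 hz.2⟩)
    exact e1.trans (le_mul_of_one_le_right (by positivity) hXν)
  have k2 : (E2.card : ℝ) ≤ C * X ^ (2 / 3 - min ν (1 / 3)) := by
    have e1 := h1 X hX E2 (fun z hz => by
      rw [hE2, Finset.mem_filter, not_le] at hz
      obtain ⟨b1, b2, b3⟩ := hE z hz.1
      rw [Finset.sdiff_empty]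
      refine ⟨b1, b2, ?_⟩
      have b4 := mul_lt_mul_of_pos_left hz.2 hb0
      have b5 := le_abs_self c
      have b6 : κ' * Real.log (nn (sp z)) =
          κ * Real.log (nn (sp z)) - b * Real.log (nn (sp z)) := by rw [hb]; ring
      rw [b6]
      linarith)
    refine e1.trans (mul_le_mul_of_nonneg_left ?_ hC.le)
    exact Real.rpow_le_rpow_of_exponent_le hX (by have := min_le_left ν (1 / 3); linarith)
  rw [hcard]
  push_cast
  linarith

/-- the numbers `x ≠ 0, 1` with conductor sum at most `log X` -/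
def Numbers (K : Type) [Field K] [NumberField K] (X : ℝ) : Set K :=
  {x | x ≠ 0 ∧ x ≠ 1 ∧ Real.exp (Weak.cond x + Weak.cond x⁻¹ + Weak.cond (x - 1)) ≤ X}

/-- the exceptional ones -/
def Exc (K : Type) [Field K] [NumberField K] (κ c X : ℝ) : Set K :=
  {x | x ≠ 0 ∧ x ≠ 1 ∧ Real.exp (Weak.cond x + Weak.cond x⁻¹ + Weak.cond (x - 1)) ≤ X ∧
    κ * (Weak.cond x + Weak.cond x⁻¹ + Weak.cond (x - 1)) ≤ height x + c}

theorem fin_of_bound {α : Type} (P : Set α) (B : ℝ)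
    (h : ∀ G : Finset α, (G : Set α) ⊆ P → (G.card : ℝ) ≤ B) : P.Finite ∧ (P.ncard : ℝ) ≤ B := by
  have hfin : P.Finite := by
    by_contra hinf
    obtain ⟨G, hGV, hGc⟩ := Set.Infinite.exists_subset_card_eq hinf (⌊B⌋₊ + 1)
    have h1 := h G hGV
    have h2 := Nat.lt_floor_add_one B
    rw [hGc] at h1
    push_cast at h1
    linarith
  refine ⟨hfin, ?_⟩
  rw [Set.ncard_eq_toFinset_card _ hfin]
  exact h hfin.toFinset (by rw [Set.Finite.coe_toFinset])

theorem nn_le_of {x : K} (h0 : x ≠ 0) (h1 : x ≠ 1) {X : ℝ}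
    (h : Real.exp (Weak.cond x + Weak.cond x⁻¹ + Weak.cond (x - 1)) ≤ X) :
    nn (sp (-x)) ≤ X ^ (Module.finrank ℚ K : ℝ) := by
  have e1 := cond_sum h0 h1
  rw [← Real.exp_log (nn_pos (sp (-x))), ← e1, mul_comm, Real.exp_mul]
  exact Real.rpow_le_rpow (Real.exp_pos _).le h d_pos.le

theorem of_nn_le {x : K} (h0 : x ≠ 0) (h1 : x ≠ 1) {X : ℝ} (hX : 1 ≤ X)
    (h : nn (sp (-x)) ≤ X ^ (Module.finrank ℚ K : ℝ)) :
    Real.exp (Weak.cond x + Weak.cond x⁻¹ + Weak.cond (x - 1)) ≤ X := by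
  have hX0 : 0 < X := by linarith
  have e1 := cond_sum h0 h1
  have e2 := Real.log_le_log (nn_pos _) h
  rw [← e1, Real.log_rpow hX0] at e2
  have e3 := le_of_mul_le_mul_left e2 (d_pos (K := K))
  exact (Real.le_log_iff_exp_le hX0).1 e3

/-- the upper bound for the number of all numbers -/
theorem upper (K : Type) [Field K] [NumberField K] (δ : ℝ) (hδ : 0 < δ) :
    ∃ C : ℝ, ∀ X : ℝ, 1 ≤ X → (Numbers K X).Finite ∧
      ((Numbers K X).ncard : ℝ) ≤ C * X ^ ((Module.finrank ℚ K : ℝ) * (2 / 3) + δ) := by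
  classical
  have hd := d_pos (K := K)
  obtain ⟨D, hD, h⟩ := Pool.Agent.Y728.mainK K (δ / Module.finrank ℚ K) (by positivity)
  refine ⟨D, fun X hX => fin_of_bound _ _ fun G hG => ?_⟩
  have hX0 : 0 < X := by linarith
  have h1 := h (X ^ (Module.finrank ℚ K : ℝ)) (Real.one_le_rpow hX hd.le) (G.image Neg.neg) (by
    intro y hy
    obtain ⟨x, hx, rfl⟩ := Finset.mem_image.1 hy
    obtain ⟨h2, h3, h4⟩ := hG hx
    exact ⟨pt_neg h2 h3, nn_le_of h2 h3 h4⟩)
  rw [Finset.card_image_of_injective _ neg_injective] at h1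
  refine h1.trans (le_of_eq ?_)
  rw [← Real.rpow_mul hX0.le]
  congr 2
  field_simp

/-- the lower bound for the number of all numbers -/
theorem lower (K : Type) [Field K] [NumberField K] (δ : ℝ) (hδ : 0 < δ) :
    ∃ X₀ : ℝ, ∀ X : ℝ, X₀ ≤ X →
      X ^ ((Module.finrank ℚ K : ℝ) * (2 / 3) - δ) ≤ ((Numbers K X).ncard : ℝ) := by
  classical
  have hd := d_pos (K := K)
  have hd1 : (1 : ℝ) ≤ Module.finrank ℚ K := by
    exact_mod_cast (Module.finrank_pos (R := ℚ) (M := K))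
  obtain ⟨X0, hX0, h⟩ := Pool.Agent.Y812.lower_pointsK K (δ / Module.finrank ℚ K) (by positivity)
  obtain ⟨C, hC⟩ := upper K 1 one_pos
  refine ⟨X0, fun X hX => ?_⟩
  have hX1 : 1 ≤ X := hX0.trans hX
  have hXp : 0 < X := by linarith
  have h1 : X0 ≤ X ^ (Module.finrank ℚ K : ℝ) := by
    refine hX.trans ?_
    calc X = X ^ (1 : ℝ) := (Real.rpow_one X).symm
      _ ≤ _ := Real.rpow_le_rpow_of_exponent_le hX1 hd1
  obtain ⟨F, hF1, hF2⟩ := h _ h1
  have hsub : ((F.image Neg.neg : Finset K) : Set K) ⊆ Numbers K X := by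
    intro x hx
    rw [Finset.mem_coe, Finset.mem_image] at hx
    obtain ⟨z, hz, rfl⟩ := hx
    obtain ⟨⟨p1, p2⟩, p3⟩ := hF1 z hz
    have q0 : -z ≠ 0 := neg_ne_zero.2 p1
    have q1 : -z ≠ 1 := by
      intro h
      apply p2
      linear_combination -h
    refine ⟨q0, q1, of_nn_le q0 q1 hX1 ?_⟩
    rw [neg_neg]
    exact p3
  have h3 := Set.ncard_le_ncard hsub (hC X hX1).1
  rw [Set.ncard_coe_finset, Finset.card_image_of_injective _ neg_injective] at h3
  have h4 : (F.card : ℝ) ≤ ((Numbers K X).ncard : ℝ) := by exact_mod_cast h3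
  refine le_trans (le_of_eq ?_) (hF2.trans h4)
  rw [← Real.rpow_mul hXp.le]
  congr 1
  field_simp

/-- the number of the exceptions -/
theorem exc_count (K : Type) [Field K] [NumberField K] {κ : ℝ} (c : ℝ) (hκ : 1 / 3 < κ) :
    ∃ ν C : ℝ, 0 < ν ∧ 0 < C ∧ ∀ X : ℝ, 1 ≤ X →
      ((Exc K κ c X).ncard : ℝ) ≤ C * X ^ ((Module.finrank ℚ K : ℝ) * (2 / 3) - ν) := by
  classical
  have hd := d_pos (K := K)
  obtain ⟨ν, hν, C, hC, h⟩ := cnt_const K ((Module.finrank ℚ K : ℝ) * c) hκ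
  refine ⟨(Module.finrank ℚ K : ℝ) * ν, C, by positivity, hC, fun X hX => ?_⟩
  have hX0 : 0 < X := by linarith
  refine (fin_of_bound _ _ fun G hG => ?_).2
  have h1 := h (X ^ (Module.finrank ℚ K : ℝ)) (Real.one_le_rpow hX hd.le) (G.image Neg.neg) (by
    intro y hy
    obtain ⟨x, hx, rfl⟩ := Finset.mem_image.1 hy
    obtain ⟨h2, h3, h4, h5⟩ := hG hx
    refine ⟨pt_neg h2 h3, nn_le_of h2 h3 h4, ?_⟩
    rw [← cond_sum h2 h3]
    have h6 := le_hgt h2 h3
    have h7 := mul_le_mul_of_nonneg_left h5 hd.le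
    linarith)
  rw [Finset.card_image_of_injective _ neg_injective] at h1
  refine h1.trans (le_of_eq ?_)
  rw [← Real.rpow_mul hX0.le]
  congr 2
  ring

/-- the proportion of the exceptions -/
theorem exc_ratio (K : Type) [Field K] [NumberField K] {κ : ℝ} (c : ℝ) (hκ : 1 / 3 < κ) :
    ∃ ν X₀ : ℝ, 0 < ν ∧ ∀ X : ℝ, X₀ ≤ X →
      ((Exc K κ c X).ncard : ℝ) ≤ X ^ (-ν) * ((Numbers K X).ncard : ℝ) := by
  obtain ⟨ν, C, hν, hC, h1⟩ := exc_count K c hκ
  obtain ⟨X0, h2⟩ := lower K (ν / 2) (by positivity)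
  obtain ⟨Λ, hΛ⟩ : ∃ Λ, Λ = |Real.log C| * (4 / ν) := ⟨_, rfl⟩
  refine ⟨ν / 4, max (max 1 X0) (Real.exp Λ), by positivity, fun X hX => ?_⟩
  have hX1 : 1 ≤ X := ((le_max_left _ _).trans (le_max_left _ _)).trans hX
  have hXX : X0 ≤ X := ((le_max_right _ _).trans (le_max_left _ _)).trans hX
  have hXe : Real.exp Λ ≤ X := (le_max_right _ _).trans hX
  have hX0 : 0 < X := by linarith
  have hC1 : C ≤ X ^ (ν / 4) := by
    have e1 : Λ ≤ Real.log X := (Real.le_log_iff_exp_le hX0).2 hXe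
    rw [← Real.log_le_log_iff hC (Real.rpow_pos_of_pos hX0 _), Real.log_rpow hX0]
    have e2 : ν / 4 * Λ = |Real.log C| := by rw [hΛ]; field_simp
    have e3 := mul_le_mul_of_nonneg_left e1 (by positivity : 0 ≤ ν / 4)
    rw [e2] at e3
    exact (le_abs_self _).trans e3
  have h3 := h1 X hX1
  have h4 := h2 X hXX
  have hXp : ∀ b : ℝ, 0 < X ^ b := fun b => Real.rpow_pos_of_pos hX0 b
  calc ((Exc K κ c X).ncard : ℝ) ≤ C * X ^ ((Module.finrank ℚ K : ℝ) * (2 / 3) - ν) := h3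
    _ ≤ X ^ (ν / 4) * X ^ ((Module.finrank ℚ K : ℝ) * (2 / 3) - ν) :=
        mul_le_mul_of_nonneg_right hC1 (hXp _).le
    _ = X ^ (-(ν / 4)) * X ^ ((Module.finrank ℚ K : ℝ) * (2 / 3) - ν / 2) := by
        rw [← Real.rpow_add hX0, ← Real.rpow_add hX0]
        congr 1
        ring
    _ ≤ _ := mul_le_mul_of_nonneg_left h4 (hXp _).le

/-- every number is an exception for `κ ≤ 1 / 3` -/
theorem c3_le {x : K} (h0 : x ≠ 0) (h1 : x ≠ 1) :
    Weak.cond x + Weak.cond x⁻¹ + Weak.cond (x - 1) ≤ 3 * (height x + Real.log 2) := by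
  have hd := d_pos (K := K)
  have e1 := cond_sum h0 h1
  have e2 := Pool.Agent.Y728.AK.rad_le_three (pt_neg h0 h1)
  have e3 := hgt_le h0 h1
  rw [← e1] at e2
  refine le_of_mul_le_mul_left ?_ hd
  linarith

theorem c3_nonneg {x : K} (h0 : x ≠ 0) (h1 : x ≠ 1) :
    0 ≤ Weak.cond x + Weak.cond x⁻¹ + Weak.cond (x - 1) := by
  have hd := d_pos (K := K)
  have e1 := cond_sum h0 h1
  have e2 : 0 ≤ Real.log (nn (sp (-x))) := Real.log_nonneg (one_le_nn _)
  rw [← e1] at e2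
  by_contra hcon
  rw [not_le] at hcon
  have := mul_neg_of_pos_of_neg hd hcon
  linarith

theorem exc_small (K : Type) [Field K] [NumberField K] {κ c : ℝ} (hκ : κ ≤ 1 / 3)
    (hc : Real.log 2 ≤ c) (X : ℝ) : Exc K κ c X = Numbers K X := by
  ext x
  constructor
  · rintro ⟨h1, h2, h3, -⟩
    exact ⟨h1, h2, h3⟩
  · rintro ⟨h1, h2, h3⟩
    refine ⟨h1, h2, h3, ?_⟩
    have e1 := c3_le h1 h2
    have e2 := c3_nonneg h1 h2
    have e3 := mul_le_mul_of_nonneg_right hκ e2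
    linarith

end Pool.Agent.Y557.WK
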